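import Pool.Agent.Helper46.C2.St

/-! Module GC of project C2: triangle identities. -/

set_option autoImplicit false

namespace Pool.Agent.Helper10.C2

open Pool.Agent.Helper43.GD Pool.Agent.Helper46.C2

private theorem core {G : Type} [Group G] (α β γ X Y Z z t : G)
    (hβ : t⁻¹ * α * t = β) (hβγ : β = α * γ) (hzt : z * t = t * z) (hYX : t⁻¹ * Y * t = X)
    (zX : z * X * z⁻¹ = X ^ 4) (zY : z * Y * z⁻¹ = Y ^ 4) (zZ : z * Z * z⁻¹ = Z ^ 4)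
    (α4 : α⁻¹ * Y * α = Y ^ 2) (α5 : α⁻¹ * z * α = Y ^ 4 * z) (α6 : α * α = Y * z⁻¹)
    (β4 : β⁻¹ * X * β = X ^ 2) (β5 : β⁻¹ * z * β = X ^ 4 * z)
    (γ5 : γ⁻¹ * z * γ = Z ^ 4 * z) (γ6 : γ * γ = Z * z⁻¹)
    (gb : α⁻¹ * β * α = β⁻¹ * X⁻¹) :
    (Z⁻¹ * X) ^ 4 = X ^ 4 * (Z ^ 4)⁻¹ ∧ (Z⁻¹ * X) ^ 2 = z * (Z⁻¹ * X ^ 2) * z := by
  have e1 : α⁻¹ * t * α = t * γ⁻¹ := by
    calc α⁻¹ * t * α = α⁻¹ * (t * (α * γ)) * γ⁻¹ := by group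
      _ = α⁻¹ * (t * (t⁻¹ * α * t)) * γ⁻¹ := by rw [hβ, hβγ]
      _ = t * γ⁻¹ := by group
  have e2 : (Y ^ 4 * z) * (t * γ⁻¹) = (t * γ⁻¹) * (Y ^ 4 * z) := by
    rw [← α5, ← e1]
    calc α⁻¹ * z * α * (α⁻¹ * t * α) = α⁻¹ * (z * t) * α := by group
      _ = α⁻¹ * (t * z) * α := by rw [hzt]
      _ = α⁻¹ * t * α * (α⁻¹ * z * α) := by group
  have hzt' : t⁻¹ * z * t = z := by
    rw [mul_assoc, hzt, ← mul_assoc, inv_mul_cancel, one_mul]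
  have e3 : t⁻¹ * (Y ^ 4 * z) * t = X ^ 4 * z := by
    calc t⁻¹ * (Y ^ 4 * z) * t = (t⁻¹ * Y * t) ^ 4 * (t⁻¹ * z * t) := by
          simp only [pow_succ, pow_zero, one_mul]
          group
      _ = X ^ 4 * z := by rw [hYX, hzt']
  have e4 : γ⁻¹ * (Y ^ 4 * z) * γ = X ^ 4 * z := by
    rw [← e3]
    calc γ⁻¹ * (Y ^ 4 * z) * γ = t⁻¹ * ((t * γ⁻¹) * (Y ^ 4 * z)) * γ := by group
      _ = t⁻¹ * ((Y ^ 4 * z) * (t * γ⁻¹)) * γ := by rw [e2]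
      _ = t⁻¹ * (Y ^ 4 * z) * t := by group
  have e5 : γ⁻¹ * Y ^ 4 * γ = X ^ 4 * (Z ^ 4)⁻¹ := by
    calc γ⁻¹ * Y ^ 4 * γ = γ⁻¹ * (Y ^ 4 * z) * γ * (γ⁻¹ * z * γ)⁻¹ := by group
      _ = X ^ 4 * z * (Z ^ 4 * z)⁻¹ := by rw [e4, γ5]
      _ = X ^ 4 * (Z ^ 4)⁻¹ := by group
  have e6 : z⁻¹ * γ * z = γ * Z⁻¹ := by
    have h1 : z * (γ * Z⁻¹) * z⁻¹ = γ := by
      calc z * (γ * Z⁻¹) * z⁻¹ = γ * (γ⁻¹ * z * γ) * z⁻¹ * (z * Z * z⁻¹)⁻¹ := by group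
        _ = γ * (Z ^ 4 * z) * z⁻¹ * (Z ^ 4)⁻¹ := by rw [γ5, zZ]
        _ = γ := by group
    calc z⁻¹ * γ * z = z⁻¹ * (z * (γ * Z⁻¹) * z⁻¹) * z := by rw [h1]
      _ = γ * Z⁻¹ := by group
  have e7 : γ⁻¹ * Y * γ = Z⁻¹ * X := by
    have h1 : (γ * Z⁻¹)⁻¹ * Y * (γ * Z⁻¹) = X * Z⁻¹ := by
      rw [← e6]
      calc (z⁻¹ * γ * z)⁻¹ * Y * (z⁻¹ * γ * z) = z⁻¹ * (γ⁻¹ * (z * Y * z⁻¹) * γ) * z := by group
        _ = z⁻¹ * (X ^ 4 * (Z ^ 4)⁻¹) * z := by rw [zY, e5]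
        _ = z⁻¹ * ((z * X * z⁻¹) * (z * Z * z⁻¹)⁻¹) * z := by rw [zX, zZ]
        _ = X * Z⁻¹ := by group
    calc γ⁻¹ * Y * γ = Z⁻¹ * ((γ * Z⁻¹)⁻¹ * Y * (γ * Z⁻¹)) * Z := by group
      _ = Z⁻¹ * (X * Z⁻¹) * Z := by rw [h1]
      _ = Z⁻¹ * X := by group
  have e9 : β⁻¹ * Y * β = (Z⁻¹ * X) ^ 2 := by
    rw [← e7, hβγ]
    calc (α * γ)⁻¹ * Y * (α * γ) = γ⁻¹ * (α⁻¹ * Y * α) * γ := by group
      _ = γ⁻¹ * Y ^ 2 * γ := by rw [α4]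
      _ = (γ⁻¹ * Y * γ) ^ 2 := by
          simp only [pow_succ, pow_zero, one_mul]
          group
  refine ⟨?_, ?_⟩
  · rw [← e7, ← e5]
    simp only [pow_succ, pow_zero, one_mul]
    group
  · have h1 : γ = β⁻¹ * X⁻¹ * α⁻¹ := by
      rw [← gb, hβγ]
      group
    have h2 : γ * γ = (β⁻¹ * X * β)⁻¹ * (β⁻¹ * z * β) * (β⁻¹ * Y * β)⁻¹ := by
      calc γ * γ = γ * (α⁻¹ * β) := by rw [hβγ]; group
        _ = β⁻¹ * X⁻¹ * α⁻¹ * (α⁻¹ * β) := by rw [← h1]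
        _ = β⁻¹ * X⁻¹ * (α * α)⁻¹ * β := by group
        _ = β⁻¹ * X⁻¹ * (Y * z⁻¹)⁻¹ * β := by rw [α6]
        _ = _ := by group
    rw [γ6, β4, β5, e9] at h2
    have h3 : Z * z⁻¹ * (Z⁻¹ * X) ^ 2 = X ^ 2 * z := by
      rw [h2]
      calc (X ^ 2)⁻¹ * (X ^ 4 * z) * ((Z⁻¹ * X) ^ 2)⁻¹ * (Z⁻¹ * X) ^ 2
          = (X ^ 2)⁻¹ * (X ^ 4 * z) := by rw [inv_mul_cancel_right]
        _ = X ^ 2 * z := by group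
    calc (Z⁻¹ * X) ^ 2 = z * Z⁻¹ * (Z * z⁻¹ * (Z⁻¹ * X) ^ 2) := by group
      _ = z * Z⁻¹ * (X ^ 2 * z) := by rw [h3]
      _ = z * (Z⁻¹ * X ^ 2) * z := by group

theorem hGC (h1 : StGA) (h2 : StGB) : StGC := by
  intro G _ k a w t hR
  have g0 := h1 G k a w t hR 0
  have g1 := h1 G k a w t hR (-1)
  have gk := h1 G k a w t hR ((k : ℤ) - 1)
  have gb := h2 G k a w t hR
  have hX : ee a w t 0 = a * a * (w * w) := by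
    unfold ee cj
    group
  have hc0 : cj a t 0 = a := by
    unfold cj
    group
  rw [hc0] at g0
  refine core (cj a t (-1)) a (cj a t ((k : ℤ) - 1)) (ee a w t 0) (ee a w t (-1))
    (ee a w t ((k : ℤ) - 1)) (w * w) t ?_ ?_ g0.2.2.1 ?_ g0.2.1 g1.2.1 gk.2.1 g1.2.2.2.1
    g1.2.2.2.2.1 g1.2.2.2.2.2 g0.2.2.2.1 g0.2.2.2.2.1 gk.2.2.2.2.1 gk.2.2.2.2.2 ?_
  · unfold cj
    group
  · have h3 := hR.2.2
    have h4 : t * cj a t 1 * t⁻¹ = a := by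
      unfold cj
      group
    have h5 : t * (a * cj a t (k : ℤ)) * t⁻¹ = cj a t (-1) * cj a t ((k : ℤ) - 1) := by
      unfold cj
      group
    rw [← h5, ← h3, h4]
  · unfold ee cj
    group
  · rw [gb, hX]

end Pool.Agent.Helper10.C2
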